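import Pool.Agent.H847R3.SuppA

/-!
Closed sets invariant under a product of `×p, ×q` with a rotation.
-/

set_option autoImplicit false

open Set Filter Topology MeasureTheory

namespace Pool.Agent.X125.RF

open Pool.Agent.H847R3.XpXq

/-- geometric steps come near every residue -/
lemma steps {Y h ε : ℝ} {N : ℕ} (hY : 1 ≤ Y) (hh : 0 < h) (hh1 : h ≤ 1) (h1 : 4 * Y * h ≤ ε)
    (h2 : 1 ≤ N * (Y * h)) (θ : ℝ) :
    ∃ m ≤ N, ∃ n : ℤ, |Y * Real.exp (m * h) - (θ + n)| ≤ ε := by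
  classical
  set n : ℤ := ⌈Y - θ⌉ with hn
  have hn1 : Y ≤ θ + n := by
    have := Int.le_ceil (Y - θ)
    linarith
  have hn2 : θ + n < Y + 1 := by
    have := Int.ceil_lt_add_one (Y - θ)
    linarith
  have hexp : ∀ m : ℕ, 1 + m * h ≤ Real.exp (m * h) := fun m => by
    have := Real.add_one_le_exp ((m : ℝ) * h)
    linarith
  have hN : θ + n < Y * Real.exp (N * h) := by
    have h3 := mul_le_mul_of_nonneg_left (hexp N) (by linarith : (0 : ℝ) ≤ Y)
    nlinarith
  have hex : ∃ m : ℕ, θ + n < Y * Real.exp (m * h) := ⟨N, hN⟩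
  set m := Nat.find hex with hm
  have hm1 : θ + n < Y * Real.exp (m * h) := Nat.find_spec hex
  have hmN : m ≤ N := Nat.find_min' hex hN
  have hm0 : m ≠ 0 := by
    intro h0
    rw [h0] at hm1
    simp only [Nat.cast_zero, zero_mul, Real.exp_zero, mul_one] at hm1
    linarith
  obtain ⟨m', hm'⟩ := Nat.exists_eq_succ_of_ne_zero hm0
  have hlt : Y * Real.exp (m' * h) ≤ θ + n := by
    have := Nat.find_min hex (m := m') (by omega)
    exact not_lt.1 this
  refine ⟨m', by omega, n, ?_⟩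
  have e1 : Real.exp (m * h) = Real.exp (m' * h) * Real.exp h := by
    rw [← Real.exp_add, hm']
    congr 1
    push_cast
    ring
  have h5 : Real.exp h ≤ 1 + 2 * h := by
    have := Real.abs_exp_sub_one_sub_id_le (x := h) (by rw [abs_of_pos hh]; exact hh1)
    have := (abs_le.1 this).2
    nlinarith
  rw [e1] at hm1
  set y := Y * Real.exp (m' * h) with hy
  have hy0 : 0 ≤ y := by positivity
  have h6 : θ + n < y * Real.exp h := by
    rw [hy]; linarith
  have h7 : y * Real.exp h ≤ y * (1 + 2 * h) := mul_le_mul_of_nonneg_left h5 hy0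
  have h8 : y ≤ 2 * Y := by linarith
  rw [abs_le]
  constructor
  · nlinarith
  · have : 0 ≤ ε := by nlinarith
    linarith

section

variable {K : Type*} [AddCommGroup K] [TopologicalSpace K] [IsTopologicalAddGroup K] [CompactSpace K]
  {α β : K}

/-- uniform return times -/
lemma returns (hD : Dense (range fun u : ℕ × ℕ => u.1 • α + u.2 • β)) {W : Set K}
    (hW : IsOpen W) (h0 : (0 : K) ∈ W) :
    ∃ J : ℕ, ∀ d : K, ∃ i ≤ J, ∃ j ≤ J, i • α + j • β - d ∈ W := by
  have hopen : ∀ u : ℕ × ℕ, IsOpen {d : K | u.1 • α + u.2 • β - d ∈ W} := fun u =>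
    hW.preimage (continuous_const.sub continuous_id)
  have hcov : (Set.univ : Set K) ⊆ ⋃ u : ℕ × ℕ, {d : K | u.1 • α + u.2 • β - d ∈ W} := by
    intro d _
    have h1 : IsOpen {z : K | z - d ∈ W} := hW.preimage (continuous_id.sub continuous_const)
    obtain ⟨z, hz, ⟨u, rfl⟩⟩ := hD.inter_open_nonempty _ h1 ⟨d, by simpa using h0⟩
    exact mem_iUnion.2 ⟨u, hz⟩
  obtain ⟨t, ht⟩ := isCompact_univ.elim_finite_subcover _ hopen hcov
  refine ⟨t.sup (fun u => max u.1 u.2), fun d => ?_⟩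
  obtain ⟨u, hu⟩ := mem_iUnion.1 (ht (mem_univ d))
  obtain ⟨hut, hud⟩ := mem_iUnion.1 hu
  have h2 := Finset.le_sup (f := fun u : ℕ × ℕ => max u.1 u.2) hut
  exact ⟨u.1, (le_max_left _ _).trans h2, u.2, (le_max_right _ _).trans h2, hud⟩

/-- small vectors -/
lemma small {p q : ℕ} (hp : 2 ≤ p) (hq : 2 ≤ q) (hirr : Irrational (Real.log p / Real.log q))
    {W : Set K} (hW : IsOpen W) (h0 : (0 : K) ∈ W) {η : ℝ} (hη : 0 < η) :
    ∃ a b : ℕ, 1 ≤ a ∧ (a : ℝ) * Real.log p - b * Real.log q ≠ 0 ∧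
      |(a : ℝ) * Real.log p - b * Real.log q| < η ∧ a • α - b • β ∈ W := by
  have hlp : 0 < Real.log p := Real.log_pos (by exact_mod_cast (by omega : 1 < p))
  have hlq : 0 < Real.log q := Real.log_pos (by exact_mod_cast (by omega : 1 < q))
  set j : ℕ → ℕ := fun i => ⌊(i : ℝ) * Real.log p / Real.log q⌋₊ with hj
  have hj1 : ∀ i : ℕ, (j i : ℝ) * Real.log q ≤ i * Real.log p := by
    intro i
    have := Nat.floor_le (show 0 ≤ (i : ℝ) * Real.log p / Real.log q by positivity)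
    rw [le_div_iff₀ hlq] at this
    exact this
  have hj2 : ∀ i : ℕ, (i : ℝ) * Real.log p ≤ j i * Real.log q + Real.log q := by
    intro i
    have := (Nat.lt_floor_add_one ((i : ℝ) * Real.log p / Real.log q)).le
    rw [div_le_iff₀ hlq] at this
    simp only [hj]
    linarith
  have hjm : Monotone j := by
    intro i i' h
    simp only [hj]
    apply Nat.floor_mono
    have : (i : ℝ) ≤ i' := by exact_mod_cast h
    gcongr
  set z : ℕ → K × ℝ := fun i => (i • α - j i • β, (i : ℝ) * Real.log p - j i * Real.log q) with hz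
  have hcpt : IsCompact ((Set.univ : Set K) ×ˢ Set.Icc (0 : ℝ) (Real.log q)) :=
    isCompact_univ.prod isCompact_Icc
  have hmem : ∀ i, z i ∈ (Set.univ : Set K) ×ˢ Set.Icc (0 : ℝ) (Real.log q) := by
    intro i
    refine ⟨mem_univ _, ?_, ?_⟩
    · have := hj1 i
      simp only [hz]; linarith
    · have := hj2 i
      simp only [hz]; linarith
  obtain ⟨c, -, hc⟩ := hcpt.exists_mapClusterPt (f := atTop) (u := z)
    (tendsto_principal.2 (Eventually.of_forall hmem))
  -- a neighbourhood with small differences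
  have hopen : IsOpen {w : (K × ℝ) × (K × ℝ) | w.1.1 - w.2.1 ∈ W ∧ |w.1.2 - w.2.2| < η} := by
    refine IsOpen.and ?_ ?_
    · exact hW.preimage (by fun_prop)
    · exact isOpen_lt (by fun_prop) continuous_const
  have hnhd : {w : (K × ℝ) × (K × ℝ) | w.1.1 - w.2.1 ∈ W ∧ |w.1.2 - w.2.2| < η} ∈ 𝓝 (c, c) := by
    refine hopen.mem_nhds ⟨?_, ?_⟩
    · simpa using h0
    · simpa using hη
  rw [nhds_prod_eq, Filter.mem_prod_self_iff] at hnhd
  obtain ⟨N, hN, hNN⟩ := hnhd
  have hfr := hc.frequently hN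
  obtain ⟨i, hi, hiN⟩ := frequently_atTop.1 hfr 0
  obtain ⟨i', hi', hiN'⟩ := frequently_atTop.1 hfr (i + 1)
  have hii : i ≤ i' := by omega
  have hjj : j i ≤ j i' := hjm hii
  have h3 := hNN (Set.mk_mem_prod hiN' hiN)
  obtain ⟨h4, h5⟩ := h3
  refine ⟨i' - i, j i' - j i, by omega, ?_, ?_, ?_⟩
  · intro h6
    apply hirr
    have hpos : (0 : ℝ) < ((i' - i : ℕ) : ℝ) := by
      have : 0 < i' - i := by omega
      exact_mod_cast this
    refine ⟨((j i' - j i : ℕ) : ℚ) / ((i' - i : ℕ) : ℚ), ?_⟩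
    push_cast [Nat.cast_sub hii, Nat.cast_sub hjj] at h6 hpos ⊢
    rw [div_eq_div_iff (by linarith) hlq.ne']
    linarith
  · have e : ((i' - i : ℕ) : ℝ) * Real.log p - ((j i' - j i : ℕ) : ℝ) * Real.log q =
        ((i' : ℝ) * Real.log p - j i' * Real.log q) - ((i : ℝ) * Real.log p - j i * Real.log q) := by
      rw [Nat.cast_sub hii, Nat.cast_sub hjj]
      ring
    rw [e]
    exact h5
  · have e : (i' - i) • α - (j i' - j i) • β = (i' • α - j i' • β) - (i • α - j i • β) := by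
      rw [sub_nsmul _ hii, sub_nsmul _ hjj]
      abel
    rw [e]
    exact h4

lemma exp_pos_case {p q a b m : ℕ} (hp : 1 ≤ p) (hq : 1 ≤ q) :
    Real.exp (m * ((a : ℝ) * Real.log p - b * Real.log q)) * (q : ℝ) ^ (m * b) =
      (p : ℝ) ^ (m * a) := by
  have hp0 : (0 : ℝ) < p := by exact_mod_cast hp
  have hq0 : (0 : ℝ) < q := by exact_mod_cast hq
  have e1 : (q : ℝ) ^ (m * b) = Real.exp (m * b * Real.log q) := by
    rw [← Real.rpow_natCast, Real.rpow_def_of_pos hq0]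
    congr 1
    push_cast
    ring
  have e2 : (p : ℝ) ^ (m * a) = Real.exp (m * a * Real.log p) := by
    rw [← Real.rpow_natCast, Real.rpow_def_of_pos hp0]
    congr 1
    push_cast
    ring
  rw [e1, e2, ← Real.exp_add]
  congr 1
  ring

/-- **Filling.** -/
theorem fill {p q : ℕ} (hp : 2 ≤ p) (hq : 2 ≤ q) (hirr : Irrational (Real.log p / Real.log q))
    (hD : Dense (range fun u : ℕ × ℕ => u.1 • α + u.2 • β)) {Z : Set (TT × K)} (hZ : IsClosed Z)
    (hZp : ∀ z ∈ Z, (p • z.1, z.2 + α) ∈ Z) (hZq : ∀ z ∈ Z, (q • z.1, z.2 + β) ∈ Z)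
    (hacc : ∀ δ : ℝ, 0 < δ → ∃ t : ℝ, 0 < t ∧ t < δ ∧ ∃ k : K, ((t : TT), k) ∈ Z) :
    Z = Set.univ := by
  have hpR : (2 : ℝ) ≤ p := by exact_mod_cast hp
  have hqR : (2 : ℝ) ≤ q := by exact_mod_cast hq
  -- iterates
  have hit : ∀ i j : ℕ, ∀ z ∈ Z, ((p ^ i * q ^ j) • z.1, z.2 + (i • α + j • β)) ∈ Z := by
    have h1 : ∀ i : ℕ, ∀ z ∈ Z, ((p ^ i) • z.1, z.2 + i • α) ∈ Z := by
      intro i
      induction i with
      | zero => intro z hz; simpa using hz
      | succ i ih =>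
        intro z hz
        have := hZp _ (ih z hz)
        have e : (p • (p ^ i) • z.1, z.2 + i • α + α) =
            ((p ^ (i + 1)) • z.1, z.2 + (i + 1) • α) := by
          rw [← mul_smul, ← pow_succ', succ_nsmul, add_assoc]
        rwa [← e]
    have h2 : ∀ j : ℕ, ∀ z ∈ Z, ((q ^ j) • z.1, z.2 + j • β) ∈ Z := by
      intro j
      induction j with
      | zero => intro z hz; simpa using hz
      | succ j ih =>
        intro z hz
        have := hZq _ (ih z hz)
        have e : (q • (q ^ j) • z.1, z.2 + j • β + β) =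
            ((q ^ (j + 1)) • z.1, z.2 + (j + 1) • β) := by
          rw [← mul_smul, ← pow_succ', succ_nsmul, add_assoc]
        rwa [← e]
    intro i j z hz
    have := h1 i _ (h2 j z hz)
    have e : ((p ^ i) • (q ^ j) • z.1, z.2 + j • β + i • α) =
        ((p ^ i * q ^ j) • z.1, z.2 + (i • α + j • β)) := by
      rw [← mul_smul, add_assoc, add_comm (j • β)]
    rwa [← e]
  by_contra hcon
  obtain ⟨z₀, hz₀⟩ := (Set.ne_univ_iff_exists_notMem Z).1 hcon
  obtain ⟨x₀, k'⟩ := z₀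
  induction x₀ using QuotientAddGroup.induction_on with
  | H θ =>
  have hnb : Zᶜ ∈ 𝓝 ((θ : TT), k') := hZ.isOpen_compl.mem_nhds hz₀
  rw [nhds_prod_eq, Filter.mem_prod_iff] at hnb
  obtain ⟨U, hU, V, hV, hUV⟩ := hnb
  obtain ⟨ε₀, hε₀, hεU⟩ := Metric.mem_nhds_iff.1 hU
  set ε : ℝ := ε₀ / 2 with hε
  have hε0 : 0 < ε := by positivity
  -- neighbourhoods in `K`
  set W₁ : Set K := {w | w + k' ∈ V} with hW₁
  have hW₁n : W₁ ∈ 𝓝 (0 : K) := by
    have hc : ContinuousAt (fun w : K => w + k') 0 := by fun_prop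
    apply hc
    simpa using hV
  obtain ⟨W₀, hW₀, h0W₀, hW₀₁⟩ := exists_open_nhds_zero_half hW₁n
  obtain ⟨J, hJ⟩ := returns hD hW₀ h0W₀
  set C : ℝ := (p : ℝ) ^ J * (q : ℝ) ^ J with hC
  have hC1 : 1 ≤ C := by
    rw [hC]
    exact one_le_mul_of_one_le_of_one_le (one_le_pow₀ (by linarith)) (one_le_pow₀ (by linarith))
  set N : ℕ := ⌈4 * p * C / ε⌉₊ with hN
  have hN1 : 4 * p * C / ε ≤ N := Nat.le_ceil _
  set W : Set K := ⋂ m ∈ Finset.range (N + 1), {w : K | m • w ∈ W₀ ∧ -(m • w) ∈ W₀} with hW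
  have hWo : IsOpen W := by
    refine isOpen_biInter_finset fun m _ => ?_
    exact (hW₀.preimage (by fun_prop)).inter (hW₀.preimage (by fun_prop))
  have h0W : (0 : K) ∈ W := by
    rw [hW, Set.mem_iInter₂]
    intro m _
    simp only [Set.mem_ofPred_eq, smul_zero, neg_zero, and_self]
    exact h0W₀
  have hWm : ∀ w ∈ W, ∀ m ≤ N, m • w ∈ W₀ ∧ -(m • w) ∈ W₀ := by
    intro w hw m hm
    rw [hW, Set.mem_iInter₂] at hw
    exact hw m (Finset.mem_range.2 (by omega))
  obtain ⟨a, b, ha, hs0, hs1, hsW⟩ := small (α := α) (β := β) hp hq hirr hWo h0W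
    (η := min 1 (ε / (4 * p * C))) (lt_min one_pos (by positivity))
  set s : ℝ := (a : ℝ) * Real.log p - b * Real.log q with hs
  set h : ℝ := |s| with hh
  have hh0 : 0 < h := abs_pos.2 hs0
  have hh1 : h ≤ 1 := hs1.le.trans (min_le_left _ _)
  have hh2 : h ≤ ε / (4 * p * C) := hs1.le.trans (min_le_right _ _)
  have hD0 : (0 : ℝ) < 4 * p * C := by positivity
  set A : ℝ := ε / (4 * p * C * h) with hA
  have hA1 : 1 ≤ A := by
    rw [hA, le_div_iff₀ (by positivity), one_mul]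
    rw [le_div_iff₀ hD0] at hh2
    linarith
  have hAh : 4 * (A * p * C) * h = ε := by
    rw [hA]; field_simp
  set j₁ : ℕ := N * b with hj₁
  -- a small point
  obtain ⟨t, ht0, htδ, k, htk⟩ := hacc (A / ((q : ℝ) ^ j₁ * (p : ℝ) ^ (N * a))) (by positivity)
  rw [lt_div_iff₀ (by positivity)] at htδ
  have hex : ∃ i : ℕ, A ≤ t * (q : ℝ) ^ j₁ * (p : ℝ) ^ i := by
    have hpos : 0 < t * (q : ℝ) ^ j₁ := by positivity
    obtain ⟨i, hi⟩ := pow_unbounded_of_one_lt (A / (t * (q : ℝ) ^ j₁)) (show (1 : ℝ) < p by linarith)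
    refine ⟨i, ?_⟩
    rw [div_lt_iff₀ hpos] at hi
    linarith
  classical
  set i₁ := Nat.find hex with hi₁
  have hi1 : A ≤ t * (q : ℝ) ^ j₁ * (p : ℝ) ^ i₁ := Nat.find_spec hex
  have hi2 : N * a < i₁ := by
    by_contra hle
    rw [not_lt] at hle
    have h3 : (p : ℝ) ^ i₁ ≤ (p : ℝ) ^ (N * a) := pow_le_pow_right₀ (by linarith) hle
    have h4 : t * (q : ℝ) ^ j₁ * (p : ℝ) ^ i₁ ≤ t * (q : ℝ) ^ j₁ * (p : ℝ) ^ (N * a) :=
      mul_le_mul_of_nonneg_left h3 (by positivity)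
    nlinarith
  have hi3 : t * (q : ℝ) ^ j₁ * (p : ℝ) ^ i₁ < A * p := by
    have h3 := Nat.find_min hex (m := i₁ - 1) (by omega)
    rw [not_le] at h3
    have h4 : (p : ℝ) ^ i₁ = (p : ℝ) ^ (i₁ - 1) * p := by
      rw [← pow_succ, Nat.sub_add_cancel (by omega)]
    rw [h4, ← mul_assoc]
    exact mul_lt_mul_of_pos_right h3 (by linarith)
  obtain ⟨i₀, hi₀, j₀, hj₀, hd⟩ := hJ (k' - (k + (i₁ • α + j₁ • β)))
  set Y : ℝ := t * (p : ℝ) ^ (i₁ + i₀) * (q : ℝ) ^ (j₁ + j₀) with hY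
  have hF1 : 1 ≤ (p : ℝ) ^ i₀ * (q : ℝ) ^ j₀ :=
    one_le_mul_of_one_le_of_one_le (one_le_pow₀ (by linarith)) (one_le_pow₀ (by linarith))
  have hF2 : (p : ℝ) ^ i₀ * (q : ℝ) ^ j₀ ≤ C := by
    rw [hC]
    exact mul_le_mul (pow_le_pow_right₀ (by linarith) hi₀) (pow_le_pow_right₀ (by linarith) hj₀)
      (by positivity) (by positivity)
  have hYe : Y = (t * (q : ℝ) ^ j₁ * (p : ℝ) ^ i₁) * ((p : ℝ) ^ i₀ * (q : ℝ) ^ j₀) := by
    rw [hY, pow_add, pow_add]; ring
  have hYA : A ≤ Y := by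
    rw [hYe]
    calc A = A * 1 := (mul_one A).symm
      _ ≤ _ := mul_le_mul hi1 hF1 zero_le_one (by positivity)
  have hYB : Y ≤ A * p * C := by
    rw [hYe]
    exact mul_le_mul hi3.le hF2 (by positivity) (by positivity)
  obtain ⟨m, hmN, n, hmn⟩ := steps (Y := Y) (h := h) (ε := ε) (N := N) (hA1.trans hYA) hh0 hh1
    (by
      calc 4 * Y * h ≤ 4 * (A * p * C) * h := by
            apply mul_le_mul_of_nonneg_right _ hh0.le
            linarith
        _ = ε := hAh)
    (by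
      have h5 : A * h = ε / (4 * p * C) := by
        rw [hA]; field_simp
      have h6 : ε / (4 * p * C) ≤ Y * h := by
        rw [← h5]
        exact mul_le_mul_of_nonneg_right hYA hh0.le
      calc (1 : ℝ) = (4 * p * C / ε) * (ε / (4 * p * C)) := by field_simp
        _ ≤ N * (Y * h) := mul_le_mul hN1 h6 (by positivity) (by positivity)) θ
  -- the final point
  have key : ∃ I L : ℕ, t * (p : ℝ) ^ I * (q : ℝ) ^ L = Y * Real.exp (m * h) ∧
      k + (I • α + L • β) ∈ V := by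
    obtain ⟨hw1, hw2⟩ := hWm _ hsW m hmN
    have hma : m * a ≤ i₁ + i₀ := (Nat.mul_le_mul_right a hmN).trans (by omega)
    have hmb : m * b ≤ j₁ + j₀ := (Nat.mul_le_mul_right b hmN).trans (by omega)
    rcases lt_or_gt_of_ne hs0 with hneg | hpos
    · -- negative
      refine ⟨i₁ + i₀ - m * a, j₁ + j₀ + m * b, ?_, ?_⟩
      · have e1 := exp_pos_case (p := q) (q := p) (a := b) (b := a) (m := m) (by omega) (by omega)
        have e2 : h = (b : ℝ) * Real.log q - a * Real.log p := by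
          rw [hh, abs_of_neg hneg, hs]; ring
        rw [← e2] at e1
        have e3 : (p : ℝ) ^ (m * a) ≠ 0 := by positivity
        apply mul_right_cancel₀ e3
        calc t * (p : ℝ) ^ (i₁ + i₀ - m * a) * (q : ℝ) ^ (j₁ + j₀ + m * b) * (p : ℝ) ^ (m * a) =
              t * ((p : ℝ) ^ (i₁ + i₀ - m * a) * (p : ℝ) ^ (m * a)) * (q : ℝ) ^ (j₁ + j₀ + m * b) := by
              ring
          _ = t * (p : ℝ) ^ (i₁ + i₀) * ((q : ℝ) ^ (j₁ + j₀) * (q : ℝ) ^ (m * b)) := by
              rw [← pow_add, Nat.sub_add_cancel hma, ← pow_add]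
          _ = Y * Real.exp (m * h) * (p : ℝ) ^ (m * a) := by
              rw [← e1, hY]; ring
      · have h7 := hW₀₁ _ hd _ hw2
        have e : k + ((i₁ + i₀ - m * a) • α + (j₁ + j₀ + m * b) • β) =
            (i₀ • α + j₀ • β - (k' - (k + (i₁ • α + j₁ • β))) + -(m • (a • α - b • β))) + k' := by
          have ea : (m * a) • α = m • a • α := mul_smul _ _ _
          have eb : (m * b) • β = m • b • β := mul_smul _ _ _
          rw [sub_nsmul _ hma, add_nsmul, add_nsmul, add_nsmul, smul_sub, ea, eb]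
          abel
        rw [e]
        exact h7
    · refine ⟨i₁ + i₀ + m * a, j₁ + j₀ - m * b, ?_, ?_⟩
      · have e1 := exp_pos_case (p := p) (q := q) (a := a) (b := b) (m := m) (by omega) (by omega)
        have e2 : h = (a : ℝ) * Real.log p - b * Real.log q := by
          rw [hh, abs_of_pos hpos, hs]
        rw [← e2] at e1
        have e3 : (q : ℝ) ^ (m * b) ≠ 0 := by positivity
        apply mul_right_cancel₀ e3
        calc t * (p : ℝ) ^ (i₁ + i₀ + m * a) * (q : ℝ) ^ (j₁ + j₀ - m * b) * (q : ℝ) ^ (m * b) =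
              t * (p : ℝ) ^ (i₁ + i₀ + m * a) * ((q : ℝ) ^ (j₁ + j₀ - m * b) * (q : ℝ) ^ (m * b)) := by
              ring
          _ = t * ((p : ℝ) ^ (i₁ + i₀) * (p : ℝ) ^ (m * a)) * (q : ℝ) ^ (j₁ + j₀) := by
              rw [← pow_add, Nat.sub_add_cancel hmb, ← pow_add]
          _ = Y * Real.exp (m * h) * (q : ℝ) ^ (m * b) := by
              rw [← e1, hY]; ring
      · have h7 := hW₀₁ _ hd _ hw1
        have e : k + ((i₁ + i₀ + m * a) • α + (j₁ + j₀ - m * b) • β) =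
            (i₀ • α + j₀ • β - (k' - (k + (i₁ • α + j₁ • β))) + m • (a • α - b • β)) + k' := by
          have ea : (m * a) • α = m • a • α := mul_smul _ _ _
          have eb : (m * b) • β = m • b • β := mul_smul _ _ _
          rw [sub_nsmul _ hmb, add_nsmul, add_nsmul, add_nsmul, smul_sub, ea, eb]
          abel
        rw [e]
        exact h7
  obtain ⟨I, L, hIL, hIV⟩ := key
  have hmemZ := hit I L _ htk
  have e4 : (p ^ I * q ^ L) • (t : TT) = ((Y * Real.exp (m * h) : ℝ) : TT) := by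
    rw [← AddCircle.coe_nsmul, nsmul_eq_mul, ← hIL]
    push_cast
    congr 1
    ring
  rw [e4] at hmemZ
  refine hUV (Set.mk_mem_prod (hεU ?_) hIV) hmemZ
  rw [Metric.mem_ball, dist_eq_norm]
  have e5 : ((Y * Real.exp (m * h) : ℝ) : TT) - (θ : TT) =
      ((Y * Real.exp (m * h) - (θ + n) : ℝ) : TT) := by
    rw [← sub_sub, AddCircle.coe_sub, AddCircle.coe_sub]
    have : ((n : ℝ) : TT) = 0 := by
      rw [AddCircle.coe_eq_zero_iff]
      exact ⟨n, by rw [zsmul_eq_mul, mul_one]⟩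
    rw [this, sub_zero]
  rw [e5]
  have e6 : ‖((Y * Real.exp (m * h) - (θ + n) : ℝ) : TT)‖ ≤ |Y * Real.exp (m * h) - (θ + n)| := by
    rw [UnitAddCircle.norm_eq]
    have := round_le (Y * Real.exp (m * h) - (θ + n)) 0
    simpa using this
  refine lt_of_le_of_lt (e6.trans hmn) ?_
  rw [hε]; linarith

end

end Pool.Agent.X125.RF
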