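import Pool.Agent.X125.RF.Bohr

/-!
Joinings of `×p, ×q` invariant measures with rotations have full support.
-/

set_option autoImplicit false

open Set Filter Topology MeasureTheory

namespace Pool.Agent.X125.RF

open Pool.Agent.H847R3.XpXq

section

variable {K : Type*} [AddCommGroup K] [TopologicalSpace K] [IsTopologicalAddGroup K] [CompactSpace K]
  {α β : K}

/-- **Closed invariant sets of the product.** -/
theorem closed_inv {p q : ℕ} (hp : 2 ≤ p) (hq : 2 ≤ q)
    (hirr : Irrational (Real.log p / Real.log q))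
    (hD : Dense (range fun u : ℕ × ℕ => u.1 • α + u.2 • β)) {Z : Set (TT × K)} (hZ : IsClosed Z)
    (hZp : ∀ z ∈ Z, (p • z.1, z.2 + α) ∈ Z) (hZq : ∀ z ∈ Z, (q • z.1, z.2 + β) ∈ Z) :
    Z = Set.univ ∨ (Prod.fst '' Z).Finite := by
  have hA : IsClosed (Prod.fst '' Z) := (hZ.isCompact.image continuous_fst).isClosed
  have hAi : Inv p q (Prod.fst '' Z) := by
    rintro _ ⟨z, hz, rfl⟩
    exact ⟨⟨_, hZp z hz, rfl⟩, ⟨_, hZq z hz, rfl⟩⟩
  by_cases h : Prod.fst '' Z = Set.univ
  · left
    refine fill hp hq hirr hD hZ hZp hZq fun δ hδ => ?_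
    have h1 : ((δ / 2 : ℝ) : TT) ∈ Prod.fst '' Z := by rw [h]; trivial
    obtain ⟨⟨x, k⟩, hz, hx⟩ := h1
    refine ⟨δ / 2, by positivity, by linarith, k, ?_⟩
    have : x = ((δ / 2 : ℝ) : TT) := hx
    rw [← this]
    exact hz
  · right
    exact finite_of_inv hp hq hirr hA hAi h

variable [SecondCountableTopology K] [MeasurableSpace K] [BorelSpace K]

/-- **Joinings have full support.** -/
theorem joining {p q : ℕ} (hp : 2 ≤ p) (hq : 2 ≤ q)
    (hirr : Irrational (Real.log p / Real.log q))
    (hD : Dense (range fun u : ℕ × ℕ => u.1 • α + u.2 • β)) {P : Measure (TT × K)}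
    [IsProbabilityMeasure P] (hPp : MeasurePreserving (fun z : TT × K => (p • z.1, z.2 + α)) P P)
    (hPq : MeasurePreserving (fun z : TT × K => (q • z.1, z.2 + β)) P P)
    (hat : ∀ x : TT, P (Prod.fst ⁻¹' {x}) = 0) {I : Set TT} {V : Set K} (hI : IsOpen I)
    (hIn : I.Nonempty) (hV : IsOpen V) (hVn : V.Nonempty) : 0 < P (I ×ˢ V) := by
  have hstep : ∀ F : TT × K → TT × K, Continuous F → MeasurePreserving F P P →
      ∀ z ∈ P.support, F z ∈ P.support := by
    intro F hF hPF z hz
    rw [Measure.mem_support_iff_forall] at hz ⊢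
    intro U hU
    obtain ⟨O, hOU, hO, hzO⟩ := mem_nhds_iff.1 hU
    have h1 := hz (F ⁻¹' O) ((hO.preimage hF).mem_nhds hzO)
    rw [hPF.measure_preimage hO.measurableSet.nullMeasurableSet] at h1
    exact h1.trans_le (measure_mono hOU)
  have hZ := closed_inv hp hq hirr hD (Z := P.support) Measure.isClosed_support
    (hstep _ (by fun_prop) hPp) (hstep _ (by fun_prop) hPq)
  rcases hZ with h | h
  · obtain ⟨x, hx⟩ := hIn
    obtain ⟨k, hk⟩ := hVn
    have h1 : (x, k) ∈ P.support := by rw [h]; trivial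
    rw [Measure.mem_support_iff_forall] at h1
    exact h1 _ ((hI.prod hV).mem_nhds ⟨hx, hk⟩)
  · exfalso
    have h1 : P P.supportᶜ = 0 := Measure.measure_compl_support
    have h2 : P (Prod.fst ⁻¹' (Prod.fst '' P.support)) = 0 := by
      have e : (Prod.fst ⁻¹' (Prod.fst '' P.support) : Set (TT × K)) =
          ⋃ x ∈ Prod.fst '' P.support, Prod.fst ⁻¹' {x} := by
        rw [← preimage_iUnion₂, biUnion_of_singleton]
      rw [e, measure_biUnion_null_iff h.countable]
      exact fun x _ => hat x
    have h3 : P Set.univ = 0 := by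
      refine measure_mono_null (t := P.supportᶜ ∪ Prod.fst ⁻¹' (Prod.fst '' P.support)) ?_
        (measure_union_null h1 h2)
      intro z _
      by_cases hz : z ∈ P.support
      · exact Or.inr ⟨z, hz, rfl⟩
      · exact Or.inl hz
    rw [measure_univ] at h3
    exact one_ne_zero h3

/-- equivariant maps to the group -/
theorem eigen {p q : ℕ} (hp : 2 ≤ p) (hq : 2 ≤ q)
    (hirr : Irrational (Real.log p / Real.log q))
    (hD : Dense (range fun u : ℕ × ℕ => u.1 • α + u.2 • β)) {μ : Measure TT}
    [IsProbabilityMeasure μ] (hat : ∀ x, μ {x} = 0)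
    (hμp : MeasurePreserving (fun x : TT => p • x) μ μ)
    (hμq : MeasurePreserving (fun x : TT => q • x) μ μ) {g : TT → K} (hg : Measurable g)
    (hgp : ∀ᵐ x ∂μ, g (p • x) = g x + α) (hgq : ∀ᵐ x ∂μ, g (q • x) = g x + β)
    {I : Set TT} {V : Set K} (hI : IsOpen I) (hIn : I.Nonempty) (hV : IsOpen V)
    (hVn : V.Nonempty) : 0 < μ (I ∩ g ⁻¹' V) := by
  have hG : Measurable fun x : TT => (x, g x) := measurable_id.prodMk hg
  have : IsProbabilityMeasure (μ.map fun x : TT => (x, g x)) :=
    Measure.isProbabilityMeasure_map hG.aemeasurable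
  have hstep : ∀ (s : ℕ) (γ : K), MeasurePreserving (fun x : TT => s • x) μ μ →
      (∀ᵐ x ∂μ, g (s • x) = g x + γ) →
      MeasurePreserving (fun z : TT × K => (s • z.1, z.2 + γ)) (μ.map fun x : TT => (x, g x))
        (μ.map fun x : TT => (x, g x)) := by
    intro s γ hs hgs
    have hF : Measurable (fun z : TT × K => (s • z.1, z.2 + γ)) := by
      have : Continuous (fun z : TT × K => (s • z.1, z.2 + γ)) := by fun_prop
      exact this.measurable
    refine ⟨hF, ?_⟩
    rw [Measure.map_map hF hG]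
    have e1 : (fun z : TT × K => (s • z.1, z.2 + γ)) ∘ (fun x : TT => (x, g x)) =ᵐ[μ]
        (fun x : TT => (x, g x)) ∘ fun x : TT => s • x := by
      filter_upwards [hgs] with x hx
      simp only [Function.comp]
      rw [hx]
    rw [Measure.map_congr e1, ← Measure.map_map hG hs.measurable, hs.map_eq]
  have h := joining hp hq hirr hD (hstep p α hμp hgp) (hstep q β hμq hgq) (fun x => by
    rw [Measure.map_apply hG (measurable_fst (measurableSet_singleton x))]
    exact hat x) hI hIn hV hVn
  rw [Measure.map_apply hG (hI.prod hV).measurableSet] at h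
  exact h

/-- equivariant maps from the group -/
theorem coding {p q : ℕ} (hp : 2 ≤ p) (hq : 2 ≤ q)
    (hirr : Irrational (Real.log p / Real.log q))
    (hD : Dense (range fun u : ℕ × ℕ => u.1 • α + u.2 • β)) {κ : Measure K}
    [IsProbabilityMeasure κ] (hα : MeasurePreserving (fun k : K => k + α) κ κ)
    (hβ : MeasurePreserving (fun k : K => k + β) κ κ) {φ : K → TT} (hφ : Measurable φ)
    (hat : ∀ x, κ (φ ⁻¹' {x}) = 0)
    (hφp : ∀ᵐ k ∂κ, φ (k + α) = p • φ k) (hφq : ∀ᵐ k ∂κ, φ (k + β) = q • φ k)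
    {I : Set TT} {V : Set K} (hI : IsOpen I) (hIn : I.Nonempty) (hV : IsOpen V)
    (hVn : V.Nonempty) : 0 < κ (φ ⁻¹' I ∩ V) := by
  have hG : Measurable fun k : K => (φ k, k) := hφ.prodMk measurable_id
  have : IsProbabilityMeasure (κ.map fun k : K => (φ k, k)) :=
    Measure.isProbabilityMeasure_map hG.aemeasurable
  have hstep : ∀ (s : ℕ) (γ : K), MeasurePreserving (fun k : K => k + γ) κ κ →
      (∀ᵐ k ∂κ, φ (k + γ) = s • φ k) →
      MeasurePreserving (fun z : TT × K => (s • z.1, z.2 + γ)) (κ.map fun k : K => (φ k, k))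
        (κ.map fun k : K => (φ k, k)) := by
    intro s γ hs hgs
    have hF : Measurable (fun z : TT × K => (s • z.1, z.2 + γ)) := by
      have : Continuous (fun z : TT × K => (s • z.1, z.2 + γ)) := by fun_prop
      exact this.measurable
    refine ⟨hF, ?_⟩
    rw [Measure.map_map hF hG]
    have e1 : (fun z : TT × K => (s • z.1, z.2 + γ)) ∘ (fun k : K => (φ k, k)) =ᵐ[κ]
        (fun k : K => (φ k, k)) ∘ fun k : K => k + γ := by
      filter_upwards [hgs] with k hk
      simp only [Function.comp]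
      rw [hk]
    rw [Measure.map_congr e1, ← Measure.map_map hG hs.measurable, hs.map_eq]
  have h := joining hp hq hirr hD (hstep p α hα hφp) (hstep q β hβ hφq) (fun x => by
    rw [Measure.map_apply hG (measurable_fst (measurableSet_singleton x))]
    exact hat x) hI hIn hV hVn
  rw [Measure.map_apply hG (hI.prod hV).measurableSet] at h
  exact h

end

end Pool.Agent.X125.RF
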